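import Pool.Agent.Helper3.GU.Fin

/-!
# De Rham conjugates of Hodge classes and graph hypersurfaces

For a smooth projective variety `Y` over `ℚ` let `AH^n(Y)` be the space of the Hodge classes
`v ∈ H^{2n}(Y_ℂ, ℚ(n))` such that for all automorphisms `σ` of `ℂ` the class `(v^dR)_σ` is the image of a
Hodge class of `(Y_ℂ)_σ` (the classes with the property of question Q1), and `Hdg^n(Y)` the space of all
Hodge classes of `Y_ℂ`. Both are functors of Chow motives, as correspondences respect Hodge classes and
commute with conjugation. For a separated scheme `X` of finite type over `ℚ` let `W(X)` be its weight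
complex (Gillet, Soulé), with `W(X) = h(X)` for smooth projective `X`, and for `n, i ∈ ℤ` let

* `A^{n,i}(X) = H^i(AH^n(W(X)))`;
* `B^{n,i}(X) = H^i(Hdg^n(W(X)))`, which is the space of Hodge classes in
  `Gr^W_{2n} H^{2n+i}_c(X_ℂ, ℚ(n))`.

The inclusion of `AH^n` in `Hdg^n` gives maps `A^{n,i}(X) → B^{n,i}(X)`; `BijAll C X` says that they are
isomorphisms for all `n` and `i`. For smooth projective `Y` it is the statement of question Q1 for `Y_ℂ`
and all degrees.

For a simple graph `G` with the vertices `0, …, n` let `K_G` be the Kirchhoff polynomial: the determinant of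
the Laplacian matrix (in the variables of the edges) without the row and the column of the vertex `0`, and
`Ψ_G` the first Symanzik polynomial, the determinant of the expanded Laplacian matrix. `G` runs through
the graphs with at most three neighbours of each vertex (`Subcubic`).

**Theorem.** Question Q1 has a positive answer for all smooth projective varieties over `ℚ` (hence for
all those that are defined over number fields) if and only if the maps `A^{n,i}(X) → B^{n,i}(X)` are
isomorphisms, for all `n` and `i`, for each one of the following classes of schemes `X` over `ℚ`: all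
separated schemes of finite type; the complements of `K_G = 0` in the affine spaces; the hypersurfaces
`K_G = 0`; the complements of `K_G = 0` in the tori; the complements of `Ψ_G = 0` in the tori.
-/

set_option autoImplicit false

open CategoryTheory AlgebraicGeometry Pool.Agent.Y116.UV Pool.Agent.Q193.LT Pool.Agent.Helper3.GU

universe w

namespace Pool.Agent.Results.MP_e2e4f5_ag.GraphHypersurfaces

/-- **Conjugates of Hodge classes and graph hypersurfaces.** See the explanations above. -/
theorem result {C : PairData.{w} ℚ (ℤ × ℤ) ℚ} (hC : IsWeightPair C) (hg : WeightGen C)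
    (point : BijAll C (aff ℚ ℚ)) :
    List.TFAE [∀ Y : Sch ℚ, SmoothProj Y → BijAll C Y,
      ∀ X : Sch ℚ, FT True X → BijAll C X,
      ∀ (n : ℕ) (G : SimpleGraph (Fin (n + 1))), Subcubic G → BijAll C (graphS ℚ G),
      ∀ (n : ℕ) (G : SimpleGraph (Fin (n + 1))), Subcubic G → BijAll C (graphH ℚ G),
      ∀ (n : ℕ) (G : SimpleGraph (Fin (n + 1))), Subcubic G → BijAll C (graphT ℚ G),
      ∀ (n : ℕ) (G : SimpleGraph (Fin (n + 1))), Subcubic G → BijAll C (feynmanT ℚ G)] :=
  cubic_pair hg hC point frac_rat

end Pool.Agent.Results.MP_e2e4f5_ag.GraphHypersurfaces
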