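import Pool.Agent.Helper59.IP.Main

/-!
# De Rham conjugates of Hodge classes and independence polynomials of graphs

For a smooth projective variety `Y` over `ℚ` let `AH^n(Y)` be the space of the Hodge classes
`v ∈ H^{2n}(Y_ℂ, ℚ(n))` such that for all automorphisms `σ` of `ℂ` the class `(v^dR)_σ` is the image of a
Hodge class of `(Y_ℂ)_σ` (the classes with the property of question Q1), and `Hdg^n(Y)` the space of all
Hodge classes of `Y_ℂ`. Both are functors of Chow motives, as correspondences respect Hodge classes and
commute with conjugation. For a separated scheme `X` of finite type over `ℚ` let `W(X)` be its weight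
complex (Gillet, Soulé), with `W(X) = h(X)` for smooth projective `X`, and for `n, i ∈ ℤ` let

* `A^{n,i}(X) = H^i(AH^n(W(X)))`;
* `B^{n,i}(X) = H^i(Hdg^n(W(X)))`, which is the space of Hodge classes in
  `Gr^W_{2n} H^{2n+i}_c(X_ℂ, ℚ(n))`.

The inclusion of `AH^n` in `Hdg^n` gives maps `A^{n,i}(X) → B^{n,i}(X)`; `BijAll C X` says that they are
isomorphisms for all `n` and `i`. For smooth projective `Y` it is the statement of question Q1 for `Y_ℂ`
and all degrees.

For a graph `G` with the vertices `V` let `I_G = ∑_s ∏_{v ∈ s} x_v`, the sum over the independent sets `s`
(sets of pairwise non-adjacent vertices) of `G`: the multivariate independence polynomial. It is the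
partition function of the lattice gas on `G` with hard core interaction and activities `x_v`. `G` runs
through the graphs whose vertices are covered by three cliques (`ThreeCliques`), so that an independent set
has at most three elements and `I_G` is a cubic polynomial: the sum of `∏_{v ∈ s} x_v` over all cliques `s`
of the 3-colourable complementary graph.

**Theorem.** Question Q1 has a positive answer for all smooth projective varieties over `ℚ` (hence for all
those that are defined over number fields) if and only if the maps `A^{n,i}(X) → B^{n,i}(X)` are
isomorphisms, for all `n` and `i`, for each one of the following classes of schemes `X` over `ℚ`: all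
separated schemes of finite type; the complements of `I_G = 0` in the affine spaces, for the graphs `G`
covered by three cliques; the cubic hypersurfaces `I_G = 0`; the complements of `I_G = 0` in the tori; the
intersections of `I_G = 0` with the tori.

The universality theorem for these polynomials is `Pool.Agent.Helper59.IP.ind_tfae`: a property of schemes
of finite type that is closed under closed-open decompositions and the usual affine bundles is true for all
schemes if it is true for the complements of the hypersurfaces `I_G = 0`. The idea: let `Γ` be covered by
two cliques and `A_1, …, A_m` sets of vertices. Add to `Γ` a vertex `w` adjacent to `Γ`, a clique of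
vertices `v_r` adjacent to `w` and to the vertices of `Γ` outside of `A_r`, and a vertex `u` adjacent to the
`v_r`. The graph is covered by three cliques and has the polynomial `(1 + u)(w + I_Γ) + ∑_r v_r I_{A_r}`.
Cutting along `w + I_Γ = 0`, passing from the invertible values of `∑ v_r I_{A_r}` to the value one, and
using Jouanolou's device one arrives at the common zeros of the polynomials `I_{A_r}` of the induced
subgraphs, and these describe the trilinear hypersurfaces `T = 1`, which are universal by a theorem of the
library.
-/

set_option autoImplicit false

open CategoryTheory AlgebraicGeometry Pool.Agent.Y116.UV Pool.Agent.Q193.LT Pool.Agent.Helper3.GU Pool.Agent.Helper59.IP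

universe w

namespace Pool.Agent.Results.MP_e2e4f5_ag.IndependencePolynomials

/-- **Conjugates of Hodge classes and independence polynomials of graphs.** See the explanations above. -/
theorem result {C : PairData.{w} ℚ (ℤ × ℤ) ℚ} (hC : IsWeightPair C) (hg : WeightGen C)
    (point : BijAll C (aff ℚ ℚ)) :
    List.TFAE [∀ Y : Sch ℚ, SmoothProj Y → BijAll C Y,
      ∀ X : Sch ℚ, FT True X → BijAll C X,
      ∀ (n : ℕ) (G : SimpleGraph (Fin n)), ThreeCliques G → BijAll C (indS ℚ G),
      ∀ (n : ℕ) (G : SimpleGraph (Fin n)), ThreeCliques G → BijAll C (indH ℚ G),
      ∀ (n : ℕ) (G : SimpleGraph (Fin n)), ThreeCliques G → BijAll C (indT ℚ G),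
      ∀ (n : ℕ) (G : SimpleGraph (Fin n)), ThreeCliques G → BijAll C (indHT ℚ G)] :=
  ind_pair hg hC point frac_rat

end Pool.Agent.Results.MP_e2e4f5_ag.IndependencePolynomials
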