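import Pool.Agent.Helper10.PC.Pair

/-!
# Conjugates of one Hodge class and smooth moduli spaces of planar configurations

Let `S` be a smooth projective scheme over `ℚ` and let `v` be **one** Hodge class in `H^{2k}(S_ℂ, ℚ(k))`,
for **one** codimension `k`. Question 1 for `v` is whether the conjugates of its de Rham class under the
automorphisms of `ℂ` are again (classes of) Hodge classes; we call `v` conjugation invariant if this is
true. (In Question 2 the de Rham class is replaced by the `ℓ`-adic class, for one prime `ℓ` or for all
primes.) Note that each smooth projective variety over a number field is a union of connected components of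
`S_K` for such a scheme `S`.

For a smooth projective scheme `Y` over `ℚ` let `E(Y) = H^{2k}(Y_ℂ, ℚ(k))`, let `abs Y ⊆ E(Y)` be the
subspace of the conjugation invariant Hodge classes, and let `B_v(Y) ⊆ E(Y)` be the space of the classes
`f_* v`, where `f` runs through the correspondences of degree zero from `S` to `Y` over `ℚ` (rational
coefficients). Put `A_v(Y) = B_v(Y) ∩ abs Y`. Both are additive functors of the Chow motive of `Y`, as
algebraic correspondences preserve `abs`; they are equal if and only if all classes `f_* v` on `Y` are
conjugation invariant (`Stable`). For a separated scheme `X` of finite type over `ℚ` let `W(X)` be the weight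
complex of `X` (Gillet, Soulé, Bondarko; a bounded complex of effective Chow motives with rational
coefficients, for the cohomology with compact supports; `W(X) = h(X)` for smooth projective `X`), and put
`A^j(X) = H^j(A_v(W(X)))` and `B^j(X) = H^j(B_v(W(X)))`. `BijAll C X` says that the maps `A^j(X) → B^j(X)`
are isomorphisms for all `j`. The facts which are used: isomorphism invariance, `W(∅) = 0`, long exact
sequences of closed-open pairs (`IsCutPair`; neither Tate twists, nor affine bundles, nor products with
`𝔾_m`), and that `W(X)` consists of direct factors of motives of smooth projective schemes whose dimension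
is at most the dimension of `X` (`AllGen`, `BijDim`).

A matroid `M` of rank three on the set `Fin 4 ⊕ Fin n` is **framed** if any three of the four elements of
`Fin 4` form a base; it is **simple** if any two elements are independent. Let `modS ℚ M` be the moduli
space of the configurations of `n + 4` different points in the projective plane in which exactly the triples
prescribed by `M` are collinear, modulo projective transformations: the four points of `Fin 4` are the
points of `e_1, e_2, e_3, e_1 + e_2 + e_3`, and the other ones have normalised coordinates.

**Theorem.** (1) For each smooth projective scheme `S` over `ℚ` there is a finite list `L` of simple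
matroids of rank three, whose moduli spaces are integral, smooth, and of dimension at most `dim S`, such
that for all `k` and all Hodge classes `v` in `H^{2k}(S_ℂ, ℚ(k))` the following statements are equivalent:
`v` is conjugation invariant; the maps `A^j(X) → B^j(X)` are isomorphisms for all separated schemes `X` of
finite type over `ℚ`; they are isomorphisms for the finitely many moduli spaces `X = modS ℚ M`, `M` in `L`.

(2) Now let `A` be the functor of all conjugation invariant Hodge classes of the one codimension `k`, and
`B` the functor of all Hodge classes of this codimension. For each `d` the following are equivalent: the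
Hodge classes of codimension `k` of all smooth projective schemes `Y` over `ℚ` of dimension at most `d` are
conjugation invariant; the maps are isomorphisms for all separated schemes `X` of finite type over `ℚ` of
dimension at most `d`; they are isomorphisms for the integral smooth moduli spaces `X = modS ℚ M` of
dimension at most `d`, for all simple framed matroids `M` of rank three. The same is true without bounds for
the dimensions.

The earlier reductions of the conjecture (to cubic hypersurfaces, graph hypersurfaces, sparse matrices)
lead to singular schemes or to schemes of larger dimension, they need all codimensions, Tate twists, affine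
bundles and products with `𝔾_m`, and they say nothing about one Hodge class. In the background is the
theorem `Pool.Agent.Helper13.RM.config_list` on arbitrary properties of schemes that are closed under
cutting.
-/

set_option autoImplicit false

open AlgebraicGeometry Pool.Agent.Y116.UV Pool.Agent.Z125.UN Pool.Agent.Q193.LT
  Pool.Agent.Helper3.GU Pool.Agent.Helper13.RM Pool.Agent.Helper10.PC

universe w

namespace Pool.Agent.Results.MP_e2e4f5_ag.PlanarConfigurations

/-- The cohomology in one degree `2k`, and the correspondences from one scheme `S`. -/
structure HodgeData (S : Sch ℚ) where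
  /-- `H^{2k}(Y_ℂ, ℚ(k))` -/
  E : Sch ℚ → ModuleCat.{w} ℚ
  /-- the Hodge classes all of whose conjugates are Hodge classes -/
  abs : ∀ Y : Sch ℚ, Submodule ℚ (E Y)
  /-- the correspondences of degree zero from `S` to `Y` (rational coefficients) -/
  corr : Sch ℚ → ModuleCat.{w} ℚ
  /-- the map `f_*` -/
  act : ∀ Y, corr Y →ₗ[ℚ] E S →ₗ[ℚ] E Y
  /-- the diagonal of `S` -/
  diag : corr S

variable {S : Sch ℚ}

/-- The standard properties: the diagonal acts as the identity, and correspondences preserve the
conjugation invariant Hodge classes. -/
structure IsHodge (D : HodgeData.{w} S) : Prop where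
  one_act : ∀ a, D.act S D.diag a = a
  act_mem : ∀ Y, SmoothProj Y → ∀ f, ∀ a ∈ D.abs S, D.act Y f a ∈ D.abs Y

/-- The classes `f_* v` on `Y` are conjugation invariant Hodge classes. -/
def Stable (D : HodgeData.{w} S) (v : D.E S) (Y : Sch ℚ) : Prop := ∀ f, D.act Y f v ∈ D.abs Y

/-- **Conjugates of Hodge classes and smooth moduli spaces of planar configurations.** See the
explanations above. -/
theorem result :
    (∀ {S : Sch ℚ}, SmoothProj S →
      ∃ L : List Mat, (∀ M ∈ L, SmoothMod ℚ (topologicalKrullDim S.left) M.2) ∧
        ∀ (D : HodgeData.{w} S) (v : D.E S) (C : PairData.{w} ℚ ℤ ℚ) {δ : ℤ ≃ ℤ}, IsHodge D →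
          IsCutPair C δ → AllGen C → (∀ Y, SmoothProj Y → (BijAll C Y ↔ Stable D v Y)) →
          List.TFAE [v ∈ D.abs S,
            ∀ X : Sch ℚ, FT True X → BijAll C X,
            ∀ M ∈ L, BijAll C (modS ℚ M.2)]) ∧
    ∀ (C : PairData.{w} ℚ ℤ ℚ) {δ : ℤ ≃ ℤ}, IsCutPair C δ → BijDim C →
      (∀ d : ℕ, List.TFAE [∀ Y : Sch ℚ, SmoothProj Y → DimAt Y d → BijAll C Y,
        ∀ X : Sch ℚ, FT True X → DimAt X d → BijAll C X,
        ∀ (m : ℕ) (M : Matroid (Fin 4 ⊕ Fin m)), SmoothMod ℚ d M → BijAll C (modS ℚ M)]) ∧
      List.TFAE [∀ Y : Sch ℚ, SmoothProj Y → BijAll C Y,
        ∀ X : Sch ℚ, FT True X → BijAll C X,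
        ∀ (d m : ℕ) (M : Matroid (Fin 4 ⊕ Fin m)), SmoothMod ℚ d M → BijAll C (modS ℚ M)] := by
  refine ⟨fun {S} hS => ?_, fun C {δ} hC gC => dims_tfae frac_rat hC gC⟩
  obtain ⟨L, hL, h⟩ := list_tfae frac_rat S hS
  refine ⟨L, hL, fun D v C {δ} hD hC hg bij => h C hC hg (v ∈ D.abs S) (fun h => ?_)
    fun h Y hY => (bij Y hY).mpr fun f => hD.act_mem Y hY f v h⟩
  have h1 := (bij S hS).mp h D.diag
  rwa [hD.one_act] at h1

end Pool.Agent.Results.MP_e2e4f5_ag.PlanarConfigurations
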