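import Pool.Agent.Helper3.GM.App2
import Pool.Agent.Helper3.GU.Fin

/-!
# De Rham conjugates of Hodge classes and sparse matrices

For a smooth projective variety `Y` over `ℚ` let `AH^n(Y)` be the space of the Hodge classes
`v ∈ H^{2n}(Y_ℂ, ℚ(n))` such that for all automorphisms `σ` of `ℂ` the class `(v^dR)_σ` is the image of a
Hodge class of `(Y_ℂ)_σ` (the classes with the property of question Q1), and `Hdg^n(Y)` the space of all
Hodge classes of `Y_ℂ`. Both are functors of Chow motives, as correspondences respect Hodge classes and
commute with conjugation. For a separated scheme `X` of finite type over `ℚ` let `W(X)` be its weight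
complex (Gillet, Soulé), with `W(X) = h(X)` for smooth projective `X`, and for `n, i ∈ ℤ` let

* `A^{n,i}(X) = H^i(AH^n(W(X)))`;
* `B^{n,i}(X) = H^i(Hdg^n(W(X)))`, which is the space of Hodge classes in
  `Gr^W_{2n} H^{2n+i}_c(X_ℂ, ℚ(n))`.

The inclusion of `AH^n` in `Hdg^n` gives maps `A^{n,i}(X) → B^{n,i}(X)`; `BijAll C X` says that they are
isomorphisms for all `n` and `i`. For smooth projective `Y` it is the statement of question Q1 for `Y_ℂ`
and all degrees.

For a set `S` of positions in the `n × n` matrices with at most three positions in each row and in each
column (`Sparse`) let `detS` be the determinant of the generic matrix with zeros outside of `S`. (With two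
positions instead of three it would be a product of monomials and binomials.)

**Theorem.** (1) For each separated scheme `X` of finite type over `ℚ` there is a finite list `L` of sets `S` of
positions, with at most three positions in each row and in each column, such that the maps
`A^{n,i}(X) → B^{n,i}(X)` are isomorphisms, for all `n` and `i`, if this is true for the schemes of one of the
following four kinds, `S` in `L`: the schemes of the invertible matrices with zeros outside of `S`; of the matrices of
determinant one with zeros outside of `S`; of the matrices of determinant zero with zeros outside of `S`; of the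
invertible matrices with zeros outside of `S` and invertible entries at all positions in `S`.

(2) Question Q1 has a positive answer for all smooth projective varieties over `ℚ` (hence for all those that
are defined over number fields) if and only if the maps are isomorphisms for all separated schemes `X` of
finite type, and if and only if they are isomorphisms for all the schemes of one of the four kinds.
-/

set_option autoImplicit false

open CategoryTheory AlgebraicGeometry Pool.Agent.Y116.UV Pool.Agent.Q193.LT Pool.Agent.Helper3.GU
  Pool.Agent.Helper3.GM

universe w

namespace Pool.Agent.Results.MP_e2e4f5_ag.SparseMatrices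

/-- **Conjugates of Hodge classes and sparse matrices.** See the explanations above. -/
theorem result :
    (∀ X : Sch ℚ, FT True X → ∃ L : List (Σ n : ℕ, Finset (Fin n × Fin n)), (∀ S ∈ L, Sparse S.2) ∧
      ∀ C : PairData.{w} ℚ (ℤ × ℤ) ℚ, IsWeightPair C → BijAll C (aff ℚ ℚ) →
        OneKind (BijAll C) L → BijAll C X) ∧
    ∀ C : PairData.{w} ℚ (ℤ × ℤ) ℚ, IsWeightPair C → WeightGen C → BijAll C (aff ℚ ℚ) →
      List.TFAE [∀ Y : Sch ℚ, SmoothProj Y → BijAll C Y,
        ∀ X : Sch ℚ, FT True X → BijAll C X,
        ∀ (n : ℕ) (S : Finset (Fin n × Fin n)), Sparse S → BijAll C (invS ℚ S),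
        ∀ (n : ℕ) (S : Finset (Fin n × Fin n)), Sparse S → BijAll C (oneS ℚ S),
        ∀ (n : ℕ) (S : Finset (Fin n × Fin n)), Sparse S → BijAll C (zeroS ℚ S),
        ∀ (n : ℕ) (S : Finset (Fin n × Fin n)), Sparse S → BijAll C (torS ℚ S)] := by
  refine ⟨fun X hX => ?_, fun C hC hg h1 => mat_pair hg hC h1 frac_rat⟩
  obtain ⟨L, hL, h⟩ := mat_finite (sep := True) (presents_frac frac_rat) X hX
  exact ⟨L, hL, fun C hC h1 => h _ (mot_of_bnd (bnd_pair hC h1))⟩

end Pool.Agent.Results.MP_e2e4f5_ag.SparseMatrices
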